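import Pool.Agent.N124.CU.Stm2

set_option autoImplicit false

/-!
# Project CU (subtask 2837): genericity inequalities
-/

namespace Pool.Agent.N647.CU

open Pool.Agent.N124.CU

variable {x : Fin 13 → ℝ}

lemma no_rel (K : Fld x) (i : Fin 13) {a b c : ℂ} (ha : a ∈ K.K {i}ᶜ) (hb : b ∈ K.K {i}ᶜ)
    (hc : c ∈ K.K {i}ᶜ) (h : a ≠ 0 ∨ b ≠ 0 ∨ c ≠ 0) :
    a * (x i : ℂ) ^ 2 + b * (x i : ℂ) + c ≠ 0 := fun e =>
  K.not_mem {i}ᶜ i (by simp) (K.root _ a b c _ ha hb hc h e)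

lemma memc (K : Fld x) {i j : Fin 13} (h : j ≠ i) : (x j : ℂ) ∈ K.K {i}ᶜ :=
  K.mem _ _ (by simpa using h)

lemma ne0 (K : Fld x) (i : Fin 13) : (x i : ℂ) ≠ 0 := by
  intro h
  exact K.not_mem {i}ᶜ i (by simp) (by rw [h]; exact zero_mem _)

lemma neij (K : Fld x) {i j : Fin 13} (h : i ≠ j) : (x i : ℂ) ≠ (x j : ℂ) := by
  intro e
  exact K.not_mem {i}ᶜ i (by simp) (by rw [e]; exact memc K h.symm)

/-- `x i` is not in the field of the other indices -/
lemma nm (K : Fld x) (i : Fin 13) : (x i : ℂ) ∉ K.K {i}ᶜ := K.not_mem _ i (by simp)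

lemma gen_of (K : Fld x) (i0 i1 i2 i3 i4 i5 : Fin 13) (S T : Set (Fin 13)) (hST : S ⊆ T)
    (h0 : i0 ∈ S) (h1 : i1 ∈ S) (h2 : i2 ∈ S) (h3 : i3 ∈ S) (h5 : i5 ∈ S) (h4 : i4 ∈ T)
    (h4' : i4 ∉ S) (d03 : i0 ≠ i3) (d15 : i1 ≠ i5) (d02 : i0 ≠ i2) (d01 : i0 ≠ i1)
    (d35 : i3 ≠ i5) (d05 : i0 ≠ i5) :
    Gen ⟨x i0, x i1, x i2, x i3, x i4, x i5⟩ (K.K S) (K.K T) where
  qc0 := K.root _
  qc := K.root _
  le := K.mono _ _ hST
  mde := K.mem _ _ h0
  ma1 := K.mem _ _ h1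
  mal := K.mem _ _ h2
  mga := K.mem _ _ h3
  mbp := K.mem _ _ h5
  mbe := K.mem _ _ h4
  nbe := K.not_mem _ _ h4'
  de0 := ne0 K _
  a10 := ne0 K _
  al0 := ne0 K _
  ga0 := ne0 K _
  h1 := neij K d03
  h2 := neij K d15
  h3 := neij K d02
  h4 := neij K d01
  h5 := neij K d35
  h6 := by
    intro e
    have e' : (x i3 : ℂ) - x i5 = x i0 - x i1 := e
    have : (x i5 : ℂ) = x i3 - x i0 + x i1 := by linear_combination -e'
    apply nm K i5
    rw [this]
    exact add_mem (sub_mem (memc K d35) (memc K d05)) (memc K d15)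
  h7 := by
    intro e
    have e' : (x i0 : ℂ) * x i5 = x i1 * x i3 := e
    have : (x i5 : ℂ) = x i1 * x i3 / x i0 := by
      rw [eq_div_iff (ne0 K i0)]
      linear_combination e'
    apply nm K i5
    rw [this]
    exact div_mem (mul_mem (memc K d15) (memc K d35)) (memc K d05)
  h8 := by
    intro e
    have e' : (x i5 : ℂ) * (x i0 - x i3) ^ 2 = x i3 * (x i5 - x i1) ^ 2 := e
    refine no_rel K i5 (a := (x i3 : ℂ)) (b := -(2 * (x i3 : ℂ) * x i1 + ((x i0 : ℂ) - x i3) ^ 2))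
      (c := (x i3 : ℂ) * x i1 ^ 2) (memc K d35) ?_ ?_ (Or.inl (ne0 K _)) ?_
    · exact neg_mem (add_mem (mul_mem (mul_mem (ofNat_mem _ 2) (memc K d35)) (memc K d15))
        (pow_mem (sub_mem (memc K d05) (memc K d35)) 2))
    · exact mul_mem (memc K d35) (pow_mem (memc K d15) 2)
    · linear_combination (-1) * e'
  h9 := by
    intro e
    have e' : (x i0 : ℂ) * (x i5 - x i1) ^ 2 = x i1 * (x i0 - x i3) ^ 2 := e
    refine no_rel K i5 (a := (x i0 : ℂ)) (b := -(2 * (x i0 : ℂ) * x i1))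
      (c := (x i0 : ℂ) * x i1 ^ 2 - x i1 * (x i0 - x i3) ^ 2) (memc K d05) ?_ ?_
      (Or.inl (ne0 K _)) ?_
    · exact neg_mem (mul_mem (mul_mem (ofNat_mem _ 2) (memc K d05)) (memc K d15))
    · exact sub_mem (mul_mem (memc K d05) (pow_mem (memc K d15) 2))
        (mul_mem (memc K d15) (pow_mem (sub_mem (memc K d05) (memc K d35)) 2))
    · linear_combination e'

theorem t_gen : S_gen := by
  intro x K
  constructor
  · exact gen_of K 0 1 3 5 12 7 SL3 SL (fun j hj => ⟨hj.2.1, hj.2.2.1⟩)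
      (by simp [SL3]) (by simp [SL3]) (by simp [SL3]) (by simp [SL3]) (by simp [SL3])
      (by simp [SL]) (by simp [SL3]) (by decide) (by decide) (by decide) (by decide) (by decide)
      (by decide)
  · exact gen_of K 0 1 2 6 10 8 SL2 SL (fun j hj => ⟨hj.2.1, hj.2.2.1⟩)
      (by simp [SL2]) (by simp [SL2]) (by simp [SL2]) (by simp [SL2]) (by simp [SL2])
      (by simp [SL]) (by simp [SL2]) (by decide) (by decide) (by decide) (by decide) (by decide)
      (by decide)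

lemma rne0 (K : Fld x) (i : Fin 13) : x i ≠ 0 := by
  intro h
  exact ne0 K i (by rw [h]; simp)

lemma rne (K : Fld x) {i j : Fin 13} (h : i ≠ j) : x i ≠ x j := by
  intro e
  exact neij K h (by rw [e])

/-- the special point `(x j - x 1) / (x 0 - x k)` -/
noncomputable def sp (x : Fin 13 → ℝ) (j k : Fin 13) : ℝ := (x j - x 1) / (x 0 - x k)

lemma sp_mem (K : Fld x) {i j k : Fin 13} (h0 : 0 ≠ i) (h1 : 1 ≠ i) (hj : j ≠ i) (hk : k ≠ i) :
    ((sp x j k : ℝ) : ℂ) ∈ K.K {i}ᶜ := by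
  unfold sp
  push_cast
  exact div_mem (sub_mem (memc K hj) (memc K h1)) (sub_mem (memc K h0) (memc K hk))

lemma sp_inv_mem (K : Fld x) {i j k : Fin 13} (h0 : 0 ≠ i) (h1 : 1 ≠ i) (hj : j ≠ i)
    (hk : k ≠ i) : ((x 1 / (x 0 * sp x j k) : ℝ) : ℂ) ∈ K.K {i}ᶜ := by
  push_cast
  exact div_mem (memc K h1) (mul_mem (memc K h0) (sp_mem K h0 h1 hj hk))

lemma sp_ne0 (K : Fld x) {j k : Fin 13} (hj : j ≠ 1) (hk : 0 ≠ k) : sp x j k ≠ 0 := by
  unfold sp
  exact div_ne_zero (sub_ne_zero.mpr (rne K hj)) (sub_ne_zero.mpr (rne K hk))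

lemma sp_not_mem (K : Fld x) {j k : Fin 13} (h0 : 0 ≠ j) (h1 : 1 ≠ j) (hkj : k ≠ j)
    (hk : 0 ≠ k) : ((sp x j k : ℝ) : ℂ) ∉ K.K {j}ᶜ := by
  intro h
  apply nm K j
  have h2 : (x 0 : ℂ) - x k ≠ 0 := sub_ne_zero.mpr (neij K hk)
  have e : (x j : ℂ) = ((sp x j k : ℝ) : ℂ) * (x 0 - x k) + x 1 := by
    unfold sp
    push_cast
    rw [div_mul_cancel₀ _ h2]
    ring
  rw [e]
  exact add_mem (mul_mem h (sub_mem (memc K h0) (memc K hkj))) (memc K h1)

lemma sp_inv_not_mem (K : Fld x) {j k : Fin 13} (h0 : 0 ≠ j) (h1 : 1 ≠ j) (hkj : k ≠ j)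
    (hk : 0 ≠ k) : ((x 1 / (x 0 * sp x j k) : ℝ) : ℂ) ∉ K.K {j}ᶜ := by
  intro h
  apply sp_not_mem K h0 h1 hkj hk
  have hs : ((sp x j k : ℝ) : ℂ) ≠ 0 := by
    have := sp_ne0 K h1.symm hk
    exact_mod_cast this
  have e : ((sp x j k : ℝ) : ℂ) = (x 1 : ℂ) / ((x 0 : ℂ) * ((x 1 / (x 0 * sp x j k) : ℝ) : ℂ)) := by
    have e0 := ne0 K 0
    have e1 := ne0 K 1
    push_cast
    field_simp
  rw [e]
  exact div_mem (memc K h1) (mul_mem (memc K h0) h)

lemma sp_sq (K : Fld x) {j k : Fin 13} (h0 : 0 ≠ j) (h1 : 1 ≠ j) (hkj : k ≠ j)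
    (hk : 0 ≠ k) : x 0 * sp x j k ^ 2 ≠ x 1 := by
  intro e
  have h2 : (x 0 : ℂ) - x k ≠ 0 := sub_ne_zero.mpr (neij K hk)
  have h3 : x 0 - x k ≠ 0 := sub_ne_zero.mpr (rne K hk)
  have e1 : x 0 * (x j - x 1) ^ 2 = x 1 * (x 0 - x k) ^ 2 := by
    unfold sp at e
    field_simp at e
    linear_combination e
  have e' : (x 0 : ℂ) * (x j - x 1) ^ 2 = x 1 * (x 0 - x k) ^ 2 := by exact_mod_cast e1
  refine no_rel K j (a := (x 0 : ℂ)) (b := -(2 * (x 0 : ℂ) * x 1))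
    (c := (x 0 : ℂ) * x 1 ^ 2 - x 1 * (x 0 - x k) ^ 2) (memc K h0) ?_ ?_
    (Or.inl (ne0 K _)) ?_
  · exact neg_mem (mul_mem (mul_mem (ofNat_mem _ 2) (memc K h0)) (memc K h1))
  · exact sub_mem (mul_mem (memc K h0) (pow_mem (memc K h1) 2))
      (mul_mem (memc K h1) (pow_mem (sub_mem (memc K h0) (memc K hkj)) 2))
  · linear_combination e'

lemma inv_sq (K : Fld x) {j k : Fin 13} (h0 : 0 ≠ j) (h1 : 1 ≠ j) (hkj : k ≠ j)
    (hk : 0 ≠ k) : x 0 * (x 1 / (x 0 * sp x j k)) ^ 2 ≠ x 1 := by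
  intro e
  apply sp_sq K h0 h1 hkj hk
  have hs := sp_ne0 K h1.symm hk
  have e0 := rne0 K 0
  have e1 := rne0 K 1
  field_simp at e
  linear_combination (-1) * e

lemma ne_of_mem {L : Subfield ℂ} {a b : ℝ} (ha : (a : ℂ) ∈ L) (hb : (b : ℂ) ∉ L) : a ≠ b := by
  rintro rfl
  exact hb ha

lemma const_mem (K : Fld x) {i : Fin 13} (h0 : 0 ≠ i) (h1 : 1 ≠ i) :
    ((0 : ℝ) : ℂ) ∈ K.K {i}ᶜ ∧ ((-1 : ℝ) : ℂ) ∈ K.K {i}ᶜ ∧
      ((-x 1 / x 0 : ℝ) : ℂ) ∈ K.K {i}ᶜ := by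
  push_cast
  exact ⟨zero_mem _, neg_mem (one_mem _), div_mem (neg_mem (memc K h1)) (memc K h0)⟩

lemma w3_eq : w3 x = sp x 7 5 := rfl
lemma w2_eq : w2 x = sp x 8 6 := rfl

theorem t_inj : S_inj := by
  intro x K
  have e0 := rne0 K 0
  have e1 := rne0 K 1
  have e01 : x 0 ≠ x 1 := rne K (by decide)
  obtain ⟨c0, c1, c2⟩ := const_mem K (i := 7) (by decide) (by decide)
  obtain ⟨d0, d1, d2⟩ := const_mem K (i := 8) (by decide) (by decide)
  have m5 := sp_mem K (i := 7) (j := 8) (k := 6) (by decide) (by decide) (by decide) (by decide)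
  have m6 := sp_inv_mem K (i := 7) (j := 8) (k := 6) (by decide) (by decide) (by decide)
    (by decide)
  have n3 := sp_not_mem K (j := 7) (k := 5) (by decide) (by decide) (by decide) (by decide)
  have n4 := sp_inv_not_mem K (j := 7) (k := 5) (by decide) (by decide) (by decide) (by decide)
  have n5 := sp_not_mem K (j := 8) (k := 6) (by decide) (by decide) (by decide) (by decide)
  have n6 := sp_inv_not_mem K (j := 8) (k := 6) (by decide) (by decide) (by decide) (by decide)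
  have s3 := sp_sq K (j := 7) (k := 5) (by decide) (by decide) (by decide) (by decide)
  have s4 := inv_sq K (j := 7) (k := 5) (by decide) (by decide) (by decide) (by decide)
  have s5 := sp_sq K (j := 8) (k := 6) (by decide) (by decide) (by decide) (by decide)
  have s6 := inv_sq K (j := 8) (k := 6) (by decide) (by decide) (by decide) (by decide)
  have p3 := sp_ne0 K (j := 7) (k := 5) (by decide) (by decide)
  have p5 := sp_ne0 K (j := 8) (k := 6) (by decide) (by decide)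
  refine ⟨e0, e1, p3, p5, rne K (by decide), rne K (by decide), ?_, ?_⟩
  · have a01 : (0 : ℝ) ≠ -1 := by norm_num
    have a02 : (0 : ℝ) ≠ -x 1 / x 0 := by
      intro h
      have : x 1 = 0 := by
        field_simp at h
        linarith
      exact e1 this
    have a12 : (-1 : ℝ) ≠ -x 1 / x 0 := by
      intro h
      apply e01
      field_simp at h
      linarith
    have a03 := ne_of_mem c0 n3
    have a04 := ne_of_mem c0 n4
    have a05 := ne_of_mem d0 n5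
    have a06 := ne_of_mem d0 n6
    have a13 := ne_of_mem c1 n3
    have a14 := ne_of_mem c1 n4
    have a15 := ne_of_mem d1 n5
    have a16 := ne_of_mem d1 n6
    have a23 := ne_of_mem c2 n3
    have a24 := ne_of_mem c2 n4
    have a25 := ne_of_mem d2 n5
    have a26 := ne_of_mem d2 n6
    have a34 : sp x 7 5 ≠ x 1 / (x 0 * sp x 7 5) := by
      intro h
      apply s3
      rw [eq_div_iff (mul_ne_zero e0 p3)] at h
      linear_combination h
    have a56 : sp x 8 6 ≠ x 1 / (x 0 * sp x 8 6) := by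
      intro h
      apply s5
      rw [eq_div_iff (mul_ne_zero e0 p5)] at h
      linear_combination h
    have a35 := (ne_of_mem m5 n3).symm
    have a36 := (ne_of_mem m6 n3).symm
    have a45 := (ne_of_mem m5 n4).symm
    have a46 := (ne_of_mem m6 n4).symm
    have key : ∀ i j : Fin 7, i < j → zz x i ≠ zz x j := by
      intro i j hij
      fin_cases i <;> fin_cases j <;> first
        | exact absurd hij (by decide)
        | assumption
    intro i j h
    rcases lt_trichotomy i j with h1 | h1 | h1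
    · exact absurd h (key i j h1)
    · exact h1
    · exact absurd h.symm (key j i h1)
  · have b0 : x 0 * (0 : ℝ) ^ 2 ≠ x 1 := by
      intro h
      apply e1
      linarith
    have b1 : x 0 * (-1 : ℝ) ^ 2 ≠ x 1 := by
      intro h
      apply e01
      linarith
    have b2 : x 0 * (-x 1 / x 0) ^ 2 ≠ x 1 := by
      intro h
      apply e01
      field_simp at h
      exact h.symm
    intro i
    fin_cases i <;> assumption

lemma reg_arm3 (K : Fld x) (w : ℂ) (h0 : w ≠ (zz x 0 : ℝ)) (h1 : w ≠ (zz x 1 : ℝ))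
    (h2 : w ≠ (zz x 2 : ℝ)) (h3 : w ≠ (zz x 3 : ℝ)) (h4 : w ≠ (zz x 4 : ℝ)) :
    (arm3 x).Reg w := by
  have e0 := ne0 K 0
  have e05 : (x 0 : ℂ) - x 5 ≠ 0 := sub_ne_zero.mpr (neij K (by decide))
  have e71 : (x 7 : ℂ) - x 1 ≠ 0 := sub_ne_zero.mpr (neij K (by decide))
  refine Par.reg_of ?_ ?_ ?_ ?_ ?_ (ne0 K 3) (ne0 K 5) e0
  · intro h
    apply h0
    rw [h]
    simp [zz]
  · intro h
    apply h1
    rw [h]
    simp [zz]
  · intro h
    apply h2
    have h' : (x 0 : ℂ) * w = -x 1 := h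
    have : w = -(x 1 : ℂ) / x 0 := by
      rw [eq_div_iff e0]
      linear_combination h'
    rw [this]
    simp [zz]
  · intro h
    apply h3
    have h' : ((x 0 : ℂ) - x 5) * w = x 7 - x 1 := h
    have : w = ((x 7 : ℂ) - x 1) / (x 0 - x 5) := by
      rw [eq_div_iff e05]
      linear_combination h'
    rw [this]
    simp [zz, w3]
  · intro h
    apply h4
    have h' : ((x 7 : ℂ) - x 1) * x 0 * w = x 1 * (x 0 - x 5) := h
    have : w = (x 1 : ℂ) / (x 0 * (((x 7 : ℂ) - x 1) / (x 0 - x 5))) := by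
      field_simp
      linear_combination h'
    rw [this]
    simp [zz, w3]

lemma reg_arm2 (K : Fld x) (w : ℂ) (h0 : w ≠ (zz x 0 : ℝ)) (h1 : w ≠ (zz x 1 : ℝ))
    (h2 : w ≠ (zz x 2 : ℝ)) (h3 : w ≠ (zz x 5 : ℝ)) (h4 : w ≠ (zz x 6 : ℝ)) :
    (arm2 x).Reg w := by
  have e0 := ne0 K 0
  have e05 : (x 0 : ℂ) - x 6 ≠ 0 := sub_ne_zero.mpr (neij K (by decide))
  have e71 : (x 8 : ℂ) - x 1 ≠ 0 := sub_ne_zero.mpr (neij K (by decide))
  refine Par.reg_of ?_ ?_ ?_ ?_ ?_ (ne0 K 2) (ne0 K 6) e0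
  · intro h
    apply h0
    rw [h]
    simp [zz]
  · intro h
    apply h1
    rw [h]
    simp [zz]
  · intro h
    apply h2
    have h' : (x 0 : ℂ) * w = -x 1 := h
    have : w = -(x 1 : ℂ) / x 0 := by
      rw [eq_div_iff e0]
      linear_combination h'
    rw [this]
    simp [zz]
  · intro h
    apply h3
    have h' : ((x 0 : ℂ) - x 6) * w = x 8 - x 1 := h
    have : w = ((x 8 : ℂ) - x 1) / (x 0 - x 6) := by
      rw [eq_div_iff e05]
      linear_combination h'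
    rw [this]
    simp [zz, w2]
  · intro h
    apply h4
    have h' : ((x 8 : ℂ) - x 1) * x 0 * w = x 1 * (x 0 - x 6) := h
    have : w = (x 1 : ℂ) / (x 0 * (((x 8 : ℂ) - x 1) / (x 0 - x 6))) := by
      field_simp
      linear_combination h'
    rw [this]
    simp [zz, w2]

lemma ws3 : (arm3 x).ws = ((zz x 3 : ℝ) : ℂ) := by
  simp [arm3, Par.ws, zz, w3]

lemma ws2 : (arm2 x).ws = ((zz x 5 : ℝ) : ℂ) := by
  simp [arm2, Par.ws, zz, w2]

theorem t_reg : S_reg := by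
  intro x K
  obtain ⟨-, -, -, -, -, -, hinj, -⟩ := t_inj x K
  have hne : ∀ i j : Fin 7, i ≠ j → ((zz x i : ℝ) : ℂ) ≠ ((zz x j : ℝ) : ℂ) := by
    intro i j hij h
    exact hij (hinj (by exact_mod_cast h))
  refine ⟨fun w hw => ⟨reg_arm3 K w (hw 0) (hw 1) (hw 2) (hw 3) (hw 4),
    reg_arm2 K w (hw 0) (hw 1) (hw 2) (hw 5) (hw 6)⟩, ?_, ?_⟩
  · rw [ws3]
    exact reg_arm2 K _ (hne _ _ (by decide)) (hne _ _ (by decide)) (hne _ _ (by decide))
      (hne _ _ (by decide)) (hne _ _ (by decide))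
  · rw [ws2]
    exact reg_arm3 K _ (hne _ _ (by decide)) (hne _ _ (by decide)) (hne _ _ (by decide))
      (hne _ _ (by decide)) (hne _ _ (by decide))

end Pool.Agent.N647.CU
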